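import Mathlib
import Pool.Agent.Run7.h289.D18.Fn
import Pool.Agent.N916.GB.Num

/-!
# The curves with full rational 2-torsion and a cyclic 4-isogeny: Selmer groups, rank and Sha

The curves are `y² = x (x + α) (x + β)` over `ℚ` with `α β` a square (the point `(0, 0)` is twice a
point of a cyclic subgroup of order four stable under the Galois group). They are excluded in the
theorem of Smith on the 2-power Selmer groups of the quadratic twists of the curves with full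
rational 2-torsion.

A pair is `(u, v)`, coprime nonzero integers with `u² ≠ v²`, and
`E_{u,v}^D : y² = x (x + u² D) (x + v² D) = x³ + a x² + b x` for a squarefree integer `D ≠ 0`.

1. These are all the curves.
2. The j-invariants, as fractions in lowest terms up to powers of two.
3. The squarefree integer `D` is admissible for `(u, v)` if `|D| = 3` modulo `4`, `D` is not a square
   modulo the odd primes of `u v`, `-D` is not a square modulo the odd primes of `u² - v²`, and a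
   condition modulo `32` holds. Then the Selmer groups of the isogeny `E_{u,v}^D → E'` of degree two
   with kernel `{O, (0, 0)}` and of its dual are the two explicit sets `A |D|` and `B |D|`, the same
   for all pairs `(u, v)`; both have order `2^(k+1)` for some `k`, and
   `2^rank * #Ш(E_{u,v}^D)[2] ≤ 4^k`; the curve has finitely many rational points and `Ш[2^∞] = 0`
   if and only if `k = 0`.
4. The joint law. Let `F` be a nonempty finite set of pairs with signs, and consider the squarefree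
   numbers `m > 0` for which `± m` is admissible for all the pairs of `F`, also those in a class `b`
   modulo `N` prime to `N`, provided that there is one. They have positive lower density; for exactly
   the proportion `g k = η / (2^(k²) ∏_{i ≤ k} (1 - 2^(-i))²)`, `η = ∏ (1 - 2^(-i)) = 0.2888...`, of
   them all the Selmer groups of all the curves of `F` have order `2^(k+1)`, and `∑ g k = 1`. For
   `k = 0`: all the curves have finitely many rational points and `Ш[2^∞] = 0` for exactly the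
   proportion `η`, and none of them for exactly the proportion `1 - η`.
5. Existence: each pair with the sign `+` (`u v` odd) or `-` (`u v` even) has admissible numbers,
   and the same number is admissible for the first `n` pairs of the sequence `(u^(2^i), v^(2^i))`; for
   any two members of the sequence an odd prime divides the denominator of the one j-invariant but
   not that of the other.
-/

set_option autoImplicit false

open Filter Topology

namespace Pool.Agent.Results.MP_e23604_nt.FullTorsionJointLaw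

/-- the curve `y² = x (x + α) (x + β)` over `ℚ` -/
def C (α β : ℚ) : WeierstrassCurve ℚ := { a₁ := 0, a₂ := α + β, a₃ := 0, a₄ := α * β, a₆ := 0 }

/-- `E_{u,v}^D` -/
def E (u v D : ℤ) : WeierstrassCurve ℚ := C ((u : ℚ) ^ 2 * D) ((v : ℚ) ^ 2 * D)

/-- the pairs `(u, v)` -/
structure Pair (u v : ℤ) : Prop where
  coprime : IsCoprime u v
  left : u ≠ 0
  right : v ≠ 0
  ne : u ^ 2 ≠ v ^ 2

/-- `D` is admissible for `(u, v)` -/
structure Admissible (u v D : ℤ) : Prop where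
  squarefree : Squarefree D
  three : D.natAbs % 4 = 3
  atUV : ∀ p : ℕ, p.Prime → p ≠ 2 → (p : ℤ) ∣ u * v → ¬ IsSquare (D : ZMod p)
  atDiff : ∀ p : ℕ, p.Prime → p ≠ 2 → (p : ℤ) ∣ u ^ 2 - v ^ 2 → ¬ IsSquare (-(D : ZMod p))
  atTwoPos : 0 < D →
    (u * v % 2 = 1 ∧ (D % 8 = 3 ∨ (u ^ 2 - v ^ 2) % 32 = 16)) ∨ u * v % 4 = 2
  atTwoNeg : D < 0 → (u * v % 2 = 1 ∧ (u ^ 2 - v ^ 2) % 16 = 8) ∨
    (u * v % 2 = 0 ∧ (D.natAbs % 8 = 3 ∨ u * v % 8 = 4))

/-- `N² = d M⁴ + a M² e² + (b / d) e⁴` has a solution in `L` with `(M, e) ≠ (0, 0)` -/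
def HasPoint (L : Type) [Field L] (a b d : ℤ) : Prop := ∃ N M e : L, (M ≠ 0 ∨ e ≠ 0) ∧
  N ^ 2 = (d : L) * M ^ 4 + (a : L) * M ^ 2 * e ^ 2 + (b : L) / (d : L) * e ^ 4

/-- the Selmer group of the isogeny of degree two onto the curve `y² = x³ + a x² + b x` with the
kernel of order two of its dual `{O, (0, 0)}`, as a set of squarefree integers: the `d` for which the
torsor has points over all `ℚ_p` and over `ℝ` -/
def Sel (a b : ℤ) : Set ℤ := {d | Squarefree d ∧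
  (∀ (p : ℕ) [Fact p.Prime], HasPoint ℚ_[p] a b d) ∧ HasPoint ℝ a b d}

/-- `d` is a square modulo the primes of `e`, and `e` modulo the primes of `d` -/
def Squares (d e : ℤ) : Prop :=
  (∀ p : ℕ, p.Prime → (p : ℤ) ∣ d → IsSquare (e : ZMod p)) ∧
    ∀ p : ℕ, p.Prime → (p : ℤ) ∣ e → IsSquare (d : ZMod p)

/-- the first explicit set -/
def A (m : ℕ) : Set ℤ := {d | d % 4 = 1 ∧ ∃ e : ℤ, d * e = -m ∧ Squares d e}

/-- the second explicit set -/
def B (m : ℕ) : Set ℤ := {d | 0 < d ∧ ∃ e : ℤ, d * e = m ∧ Squares d e}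

/-- `W(ℚ)` is finite and `Ш(W/ℚ)[2^∞] = 0` -/
structure Trivial (W : WeierstrassCurve ℚ) : Prop where
  finite : Finite W.toAffine.Point
  sha : ∀ (n : ℕ) (x : Pool.Agent.TH841.NF.D.Sha W), 2 ^ n • x = 0 → x = 0

/-- `Ш(W/ℚ)[2]` -/
abbrev ShaTwo (W : WeierstrassCurve ℚ) : Type := {x : Pool.Agent.TH841.NF.D.Sha W // 2 • x = 0}

/-- the coefficient `a` of `E_{u,v}^D` -/
def ca (u v D : ℤ) : ℤ := (u ^ 2 + v ^ 2) * D

/-- the coefficient `b` of `E_{u,v}^D` -/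
def cb (u v D : ℤ) : ℤ := u ^ 2 * v ^ 2 * D ^ 2

/-- the Selmer group of the isogeny `E' → E_{u,v}^D` -/
def Sel₁ (u v D : ℤ) : Set ℤ := Sel (ca u v D) (cb u v D)

/-- the Selmer group of the isogeny `E_{u,v}^D → E'`, `E' : y² = x³ - 2 a x² + (a² - 4 b) x` -/
def Sel₂ (u v D : ℤ) : Set ℤ := Sel (-2 * ca u v D) (ca u v D ^ 2 - 4 * cb u v D)

/-- the triples `t = (u, v, w)`: a pair `(u, v)` and a sign `w = ± 1` -/
structure Signed (t : ℤ × ℤ × ℤ) : Prop where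
  pair : Pair t.1 t.2.1
  sign : t.2.2 = 1 ∨ t.2.2 = -1

/-- `w m` is admissible for `(u, v)`, for all the triples `(u, v, w)` of `F` -/
def Common (F : Finset (ℤ × ℤ × ℤ)) (m : ℕ) : Prop :=
  ∀ t ∈ F, Admissible t.1 t.2.1 (t.2.2 * m)

/-- the number of the `m ≤ X` of the class `K` with the property `Q` -/
noncomputable def num (K Q : ℕ → Prop) (X : ℕ) : ℕ := Nat.card {m : ℕ // m ≤ X ∧ K m ∧ Q m}

/-- among the numbers of the class `K` exactly the proportion `θ` has the property `Q` -/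
def Proportion (K Q : ℕ → Prop) (θ : ℝ) : Prop :=
  Tendsto (fun X : ℕ => (num K Q X : ℝ) / (num K (fun _ => True) X : ℝ)) atTop (𝓝 θ)

/-- the constant `0.2888...` -/
noncomputable def η : ℝ := ∏' i : ℕ, (1 - (1 / 2 : ℝ) ^ (i + 1))

/-- the constants of the law -/
noncomputable def g (k : ℕ) : ℝ :=
  η / (2 ^ (k ^ 2) * (∏ i ∈ Finset.range k, (1 - (1 / 2 : ℝ) ^ (i + 1))) ^ 2)

section proof

open Pool.Agent.Run7.h289.D18

theorem pair_iff {u v : ℤ} : Pair u v ↔ Pr u v :=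
  ⟨fun h => ⟨h.1, h.2, h.3, h.4⟩, fun h => ⟨h.1, h.2, h.3, h.4⟩⟩

theorem adm_iff {u v D : ℤ} : Admissible u v D ↔ Ad u v D :=
  ⟨fun h => ⟨h.1, h.2, h.3, h.4, h.5, h.6⟩, fun h => ⟨h.1, h.2, h.3, h.4, h.5, h.6⟩⟩

theorem E_eq (u v D : ℤ) : E u v D = Ec u v D := by
  unfold E C Ec
  push_cast
  congr 1 <;> ring

theorem trivial_iff (W : WeierstrassCurve ℚ) : Trivial W ↔
    (Finite W.toAffine.Point ∧ ∀ (k : ℕ) (x : Pool.Agent.TH841.NF.D.Sha W), 2 ^ k • x = 0 → x = 0) :=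
  ⟨fun h => ⟨h.1, h.2⟩, fun h => ⟨h.1, h.2⟩⟩

theorem signed_iff {t : ℤ × ℤ × ℤ} : Signed t ↔ Tri t :=
  ⟨fun h => ⟨pair_iff.1 h.1, h.2⟩, fun h => ⟨pair_iff.2 h.1, h.2⟩⟩

theorem common_iff {F : Finset (ℤ × ℤ × ℤ)} {m : ℕ} : Common F m ↔ Cm F m :=
  forall_congr' fun _ => forall_congr' fun _ => adm_iff

theorem g_eq (k : ℕ) : g k = Run7.h843.L.gk k := by
  rw [Run7.h843.L.gk_eq]
  rfl

theorem core {u v D : ℤ} (h : Pair u v) (hD : Admissible u v D) : ∃ k : ℕ,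
    Nf D.natAbs = 2 ^ (k + 1) ∧ Nat.card (Sel₁ u v D) = 2 ^ (k + 1) ∧
    Nat.card (Sel₂ u v D) = 2 ^ (k + 1) ∧ Finite (ShaTwo (E u v D)) ∧
    2 ^ Module.finrank ℤ (E u v D).toAffine.Point * Nat.card (ShaTwo (E u v D)) ≤ 4 ^ k ∧
    (Trivial (E u v D) ↔ k = 0) := by
  rw [E_eq, trivial_iff]
  exact corank (pair_iff.1 h) (adm_iff.1 hD)

theorem sel_iff {u v D : ℤ} (h : Pair u v) (hD : Admissible u v D) (k : ℕ) :
    (Nat.card (Sel₁ u v D) = 2 ^ (k + 1) ∧ Nat.card (Sel₂ u v D) = 2 ^ (k + 1)) ↔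
      Nf D.natAbs = 2 ^ (k + 1) := by
  obtain ⟨j, h1, h2, h3, -⟩ := core h hD
  rw [h1, h2, h3, and_self]

theorem natAbs_sign {t : ℤ × ℤ × ℤ} (h : Signed t) (m : ℕ) : (t.2.2 * (m : ℤ)).natAbs = m := by
  rcases h.sign with e | e
  · rw [e, one_mul, Int.natAbs_natCast]
  · rw [e, neg_one_mul, Int.natAbs_neg, Int.natAbs_natCast]

theorem law_sel {F : Finset (ℤ × ℤ × ℤ)} (hF : ∀ t ∈ F, Signed t) (hne : F.Nonempty) {N b : ℕ}
    (hN : 0 < N) (hbc : b.Coprime N) (hex : ∃ m, Common F m ∧ m % N = b) (k : ℕ) :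
    Proportion (fun m => Common F m ∧ m % N = b) (fun m => ∀ t ∈ F,
      Nat.card (Sel₁ t.1 t.2.1 (t.2.2 * m)) = 2 ^ (k + 1) ∧
      Nat.card (Sel₂ t.1 t.2.1 (t.2.2 * m)) = 2 ^ (k + 1)) (g k) := by
  have h := law (fun t ht => signed_iff.1 (hF t ht)) hne hN hbc
    (hex.imp fun m hm => ⟨common_iff.1 hm.1, hm.2⟩) k
  rw [g_eq]
  refine Prp.congr (fun m => and_congr_left fun _ => common_iff.symm) (fun m hm => ?_) h
  have key : ∀ t ∈ F, ((Nat.card (Sel₁ t.1 t.2.1 (t.2.2 * m)) = 2 ^ (k + 1) ∧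
      Nat.card (Sel₂ t.1 t.2.1 (t.2.2 * m)) = 2 ^ (k + 1)) ↔ Nf m = 2 ^ (k + 1)) := by
    intro t ht
    have := sel_iff (hF t ht).pair (common_iff.2 hm.1 t ht) k
    rwa [natAbs_sign (hF t ht)] at this
  constructor
  · intro h1 t ht
    exact (key t ht).2 h1
  · intro h1
    obtain ⟨t, ht⟩ := hne
    exact (key t ht).1 (h1 t ht)

theorem triv_iff {t : ℤ × ℤ × ℤ} (h : Signed t) {m : ℕ} (hm : Admissible t.1 t.2.1 (t.2.2 * m)) :
    Trivial (E t.1 t.2.1 (t.2.2 * m)) ↔ Nf m = 2 ^ (0 + 1) := by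
  obtain ⟨j, h1, -, -, -, -, h6⟩ := core h.pair hm
  rw [natAbs_sign h] at h1
  rw [h6, h1]
  constructor
  · rintro rfl
    rfl
  · intro h7
    have := Nat.pow_right_injective le_rfl h7
    omega

theorem law_triv {F : Finset (ℤ × ℤ × ℤ)} (hF : ∀ t ∈ F, Signed t) (hne : F.Nonempty) {N b : ℕ}
    (hN : 0 < N) (hbc : b.Coprime N) (hex : ∃ m, Common F m ∧ m % N = b) :
    Proportion (fun m => Common F m ∧ m % N = b)
      (fun m => ∀ t ∈ F, Trivial (E t.1 t.2.1 (t.2.2 * m))) η := by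
  have h := law (fun t ht => signed_iff.1 (hF t ht)) hne hN hbc
    (hex.imp fun m hm => ⟨common_iff.1 hm.1, hm.2⟩) 0
  have e : η = Run7.h843.L.gk 0 := by
    rw [← g_eq]
    unfold g
    simp
  rw [e]
  refine Prp.congr (fun m => and_congr_left fun _ => common_iff.symm) (fun m hm => ?_) h
  constructor
  · intro h1 t ht
    exact (triv_iff (hF t ht) (common_iff.2 hm.1 t ht)).2 h1
  · intro h1
    obtain ⟨t, ht⟩ := hne
    exact (triv_iff (hF t ht) (common_iff.2 hm.1 t ht)).1 (h1 t ht)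

theorem low {F : Finset (ℤ × ℤ × ℤ)} (hF : ∀ t ∈ F, Signed t) (hne : F.Nonempty) {N b : ℕ}
    (hN : 0 < N) (hbc : b.Coprime N) (hex : ∃ m, Common F m ∧ m % N = b) :
    ∃ a : ℝ, 0 < a ∧ ∀ᶠ X : ℕ in atTop,
      a * X ≤ (num (fun m => Common F m ∧ m % N = b) (fun _ => True) X : ℝ) := by
  obtain ⟨a, ha, h⟩ := low_law (fun t ht => signed_iff.1 (hF t ht)) hne hN hbc
    (hex.imp fun m hm => ⟨common_iff.1 hm.1, hm.2⟩)
  refine ⟨a, ha, h.mono fun X hX => ?_⟩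
  have e : num (fun m => Common F m ∧ m % N = b) (fun _ => True) X =
      nm (fun m => Cm F m ∧ m % N = b) (fun _ => True) X :=
    nm_congr (fun m => and_congr_left fun _ => common_iff) (fun _ _ => Iff.rfl) X
  rwa [e]

theorem num_add {K Q : ℕ → Prop} (X : ℕ) :
    num K Q X + num K (fun m => ¬ Q m) X = num K (fun _ => True) X := by
  classical
  have key : ∀ R : ℕ → Prop, ∃ s : Finset ℕ, num K R X = s.card ∧
      ∀ m, m ∈ s ↔ m ≤ X ∧ K m ∧ R m := by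
    intro R
    have hs : ∀ m, m ∈ (Finset.range (X + 1)).filter (fun m => K m ∧ R m) ↔
        m ≤ X ∧ K m ∧ R m := by
      intro m
      rw [Finset.mem_filter, Finset.mem_range, Nat.lt_succ_iff]
    exact ⟨_, Nat.subtype_card _ hs, hs⟩
  obtain ⟨s1, e1, h1⟩ := key Q
  obtain ⟨s2, e2, h2⟩ := key fun m => ¬ Q m
  obtain ⟨s3, e3, h3⟩ := key fun _ => True
  have hu : s3 = s1 ∪ s2 := by
    ext m
    rw [Finset.mem_union, h1, h2, h3]
    tauto
  have hd : Disjoint s1 s2 := by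
    rw [Finset.disjoint_left]
    intro m a1 a2
    exact ((h2 m).1 a2).2.2 ((h1 m).1 a1).2.2
  rw [e1, e2, e3, hu, Finset.card_union_of_disjoint hd]

theorem prop_compl {K Q Q' : ℕ → Prop} {θ : ℝ} (h : ∀ m, K m → (Q' m ↔ ¬ Q m))
    (hl : ∃ a : ℝ, 0 < a ∧ ∀ᶠ X : ℕ in atTop, a * X ≤ (num K (fun _ => True) X : ℝ))
    (hq : Proportion K Q θ) : Proportion K Q' (1 - θ) := by
  obtain ⟨a, ha, hX⟩ := hl
  refine (hq.const_sub 1).congr' ?_
  filter_upwards [hX, eventually_ge_atTop 1] with X h1 h2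
  have hpos : (0 : ℝ) < num K (fun _ => True) X := by
    refine lt_of_lt_of_le ?_ h1
    have : (0 : ℝ) < X := by exact_mod_cast h2
    positivity
  have e : num K Q X + num K Q' X = num K (fun _ => True) X := by
    rw [← num_add (K := K) (Q := Q) X]
    congr 1
    exact nm_congr (fun _ => Iff.rfl) h X
  have e' : (num K Q X : ℝ) + num K Q' X = num K (fun _ => True) X := by exact_mod_cast e
  rw [eq_div_iff hpos.ne', sub_mul, div_mul_cancel₀ _ hpos.ne', one_mul]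
  linarith

theorem law_not {F : Finset (ℤ × ℤ × ℤ)} (hF : ∀ t ∈ F, Signed t) (hne : F.Nonempty) {N b : ℕ}
    (hN : 0 < N) (hbc : b.Coprime N) (hex : ∃ m, Common F m ∧ m % N = b) :
    Proportion (fun m => Common F m ∧ m % N = b)
      (fun m => ∀ t ∈ F, ¬ Trivial (E t.1 t.2.1 (t.2.2 * m))) (1 - η) := by
  refine prop_compl (fun m hm => ?_) (low hF hne hN hbc hex) (law_triv hF hne hN hbc hex)
  have hne' := hne
  obtain ⟨t0, ht0⟩ := hne'
  constructor
  · intro h h'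
    exact h t0 ht0 (h' t0 ht0)
  · intro h t ht h'
    have h1 := (triv_iff (hF t ht) (hm.1 t ht)).1 h'
    exact h fun s hs => (triv_iff (hF s hs) (hm.1 s hs)).2 h1

end proof

/-- **The curves with full rational 2-torsion and a cyclic 4-isogeny: Selmer groups, rank, Sha.** -/
theorem result :
    -- the classification
    (∀ α β : ℚ, α ≠ 0 → β ≠ 0 → α ≠ β → IsSquare (α * β) →
      ∃ (u v D : ℤ) (c : ℚ), Pair u v ∧ Squarefree D ∧ c ≠ 0 ∧ α = c ^ 2 * (u ^ 2 * D) ∧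
        β = c ^ 2 * (v ^ 2 * D)) ∧
    -- the j-invariants
    (∀ u v D : ℤ, Pair u v → D ≠ 0 → (E u v D).Δ ≠ 0 ∧ (E u v D).c₄ ^ 3 / (E u v D).Δ =
        ((256 * (u ^ 4 - u ^ 2 * v ^ 2 + v ^ 4) ^ 3 : ℤ) : ℚ) /
          ((u ^ 4 * v ^ 4 * (u ^ 2 - v ^ 2) ^ 2 : ℤ) : ℚ) ∧
      IsCoprime (u ^ 4 - u ^ 2 * v ^ 2 + v ^ 4) (u * v * (u ^ 2 - v ^ 2))) ∧
    -- the Selmer groups
    (∀ u v D : ℤ, Pair u v → Admissible u v D →
      (0 < D → Sel₁ u v D = A D.natAbs ∧ Sel₂ u v D = B D.natAbs) ∧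
      (D < 0 → Sel₁ u v D = B D.natAbs ∧ Sel₂ u v D = A D.natAbs) ∧
      ∃ k : ℕ, Nat.card (Sel₁ u v D) = 2 ^ (k + 1) ∧ Nat.card (Sel₂ u v D) = 2 ^ (k + 1) ∧
        Finite (ShaTwo (E u v D)) ∧
        2 ^ Module.finrank ℤ (E u v D).toAffine.Point * Nat.card (ShaTwo (E u v D)) ≤ 4 ^ k ∧
        (Trivial (E u v D) ↔ k = 0)) ∧
    -- the joint law
    (∀ F : Finset (ℤ × ℤ × ℤ), F.Nonempty → (∀ t ∈ F, Signed t) → ∀ N b : ℕ, 0 < N →
      b.Coprime N → (∃ m, Common F m ∧ m % N = b) →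
      (∀ k : ℕ, Proportion (fun m => Common F m ∧ m % N = b) (fun m => ∀ t ∈ F,
        Nat.card (Sel₁ t.1 t.2.1 (t.2.2 * m)) = 2 ^ (k + 1) ∧
        Nat.card (Sel₂ t.1 t.2.1 (t.2.2 * m)) = 2 ^ (k + 1)) (g k)) ∧
      Proportion (fun m => Common F m ∧ m % N = b)
        (fun m => ∀ t ∈ F, Trivial (E t.1 t.2.1 (t.2.2 * m))) η ∧
      Proportion (fun m => Common F m ∧ m % N = b)
        (fun m => ∀ t ∈ F, ¬ Trivial (E t.1 t.2.1 (t.2.2 * m))) (1 - η) ∧
      ∃ a : ℝ, 0 < a ∧ ∀ᶠ X : ℕ in atTop,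
        a * X ≤ (num (fun m => Common F m ∧ m % N = b) (fun _ => True) X : ℝ)) ∧
    -- existence
    (∀ u v w : ℤ, Pair u v → ((w = 1 ∧ u * v % 2 = 1) ∨ (w = -1 ∧ u * v % 2 = 0)) →
      (∀ n : ℕ, ∃ m : ℕ, ∀ i ≤ n, Pair (u ^ 2 ^ i) (v ^ 2 ^ i) ∧
        Admissible (u ^ 2 ^ i) (v ^ 2 ^ i) (w * m)) ∧
      ∀ i j : ℕ, i < j → ∃ p : ℕ, p.Prime ∧ p ≠ 2 ∧ (p : ℤ) ∣ (u ^ 2 ^ j) ^ 2 - (v ^ 2 ^ j) ^ 2 ∧
        ¬ (p : ℤ) ∣ u ^ 2 ^ i * v ^ 2 ^ i * ((u ^ 2 ^ i) ^ 2 - (v ^ 2 ^ i) ^ 2)) ∧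
    HasSum g 1 ∧ 0.2887 < η ∧ η < 0.2889 := by
  refine ⟨?_, ?_, ?_, fun F hne hF N b hN hbc hex => ⟨law_sel hF hne hN hbc hex,
    law_triv hF hne hN hbc hex, law_not hF hne hN hbc hex, low hF hne hN hbc hex⟩, ?_, ?_,
    Pool.Agent.N916.GB.eta_bounds.1, Pool.Agent.N916.GB.eta_bounds.2⟩
  · intro α β h1 h2 h3 h4
    obtain ⟨u, v, D, c, h5, h6, h7, h8, h9⟩ := Pool.Agent.Run7.h289.D18.classify h1 h2 h3 h4
    exact ⟨u, v, D, c, pair_iff.2 h5, h6, h7, h8, h9⟩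
  · intro u v D h hD
    have h1 := Pool.Agent.Run7.h289.D18.j_eq (pair_iff.1 h) hD
    rw [E_eq]
    exact ⟨h1.1, h1.2, Pool.Agent.Run7.h289.D18.cop_j (pair_iff.1 h)⟩
  · intro u v D h hD
    obtain ⟨s1, s2⟩ := Pool.Agent.Run7.h289.D18.selmer (pair_iff.1 h) (adm_iff.1 hD)
    obtain ⟨k, -, h2⟩ := core h hD
    exact ⟨s1, s2, k, h2⟩
  · intro u v w h hw
    refine ⟨fun n => ?_, fun i j hij => Pool.Agent.Run7.h289.D18.new_prime (pair_iff.1 h) hij⟩
    obtain ⟨m, -, hm⟩ := Pool.Agent.Run7.h289.D18.exists_adm (pair_iff.1 h) hw n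
    exact ⟨m, fun i hi => ⟨pair_iff.2 (Pool.Agent.Run7.h289.D18.pr_pow (pair_iff.1 h) i),
      adm_iff.2 (hm i hi)⟩⟩
  · have e : g = Run7.h843.L.gk := funext g_eq
    rw [e]
    exact Pool.Agent.Run7.h843.G.gk_hasSum

end Pool.Agent.Results.MP_e23604_nt.FullTorsionJointLaw
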